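import Pool.Agent.Run7.h104.AC.Defs

set_option autoImplicit false

namespace Pool.Agent.Run7.h997.AC

open MeasureTheory Complex Set Filter Topology Metric Pool.Agent.Run7.h104.AC

/-- The real determinant of the multiplication by a complex number. -/
theorem det_smulRight (a : ℂ) :
    ((ContinuousLinearMap.toSpanSingleton ℂ a).restrictScalars ℝ : ℂ →L[ℝ] ℂ).det = ‖a‖ ^ 2 := by
  have h : ((ContinuousLinearMap.toSpanSingleton ℂ a).restrictScalars ℝ : ℂ →L[ℝ] ℂ).det =
      Complex.normSq a := by
    simp [ContinuousLinearMap.det, LinearMap.det_restrictScalars, Algebra.norm_complex_eq]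
  rw [h, Complex.normSq_eq_norm_sq]

theorem t_CV : S_CV := by
  intro Ω F hΩ hF hinj E hE hEm
  have hd : ∀ x ∈ E, HasFDerivWithinAt F
      ((ContinuousLinearMap.toSpanSingleton ℂ (deriv F x)).restrictScalars ℝ : ℂ →L[ℝ] ℂ) E x := by
    intro x hx
    have h1 : HasDerivAt F (deriv F x) x :=
      ((hF x (hE hx)).differentiableAt (hΩ.mem_nhds (hE hx))).hasDerivAt
    exact (h1.hasFDerivAt.restrictScalars ℝ).hasFDerivWithinAt
  have hi : InjOn F E := hinj.mono hE
  refine ⟨measurable_image_of_fderivWithin hEm hd hi, fun g => ?_⟩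
  rw [lintegral_image_eq_lintegral_abs_det_fderiv_mul volume hEm hd hi g]
  refine lintegral_congr fun z => ?_
  rw [det_smulRight, abs_of_nonneg (by positivity)]

end Pool.Agent.Run7.h997.AC
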