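import Pool.Agent.Run7.h104.AC.Defs

set_option autoImplicit false

namespace Pool.Agent.Run7.h997.AC

open MeasureTheory Complex Set Filter Topology Metric Pool.Agent.Run7.h104.AC

theorem taylor_gen {f : ℂ → ℂ} {R : ℝ} (hR : 0 < R) (hf : DifferentiableOn ℂ f (ball 0 R)) (n : ℕ) :
    ∃ C δ : ℝ, 0 < C ∧ 0 < δ ∧ ∀ z : ℂ, ‖z‖ < δ →
      ‖f z - ∑ i ∈ Finset.range n, iteratedDeriv i f 0 / (i.factorial : ℂ) * z ^ i‖ ≤ C * ‖z‖ ^ n := by
  have ha : AnalyticAt ℂ f 0 := hf.analyticAt (ball_mem_nhds 0 hR)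
  have hO := ha.hasFPowerSeriesAt.isBigO_sub_partialSum_pow n
  obtain ⟨C, hC0, hC⟩ := hO.exists_pos
  obtain ⟨δ, hδ, h⟩ := Metric.eventually_nhds_iff.mp hC.bound
  refine ⟨C, δ, hC0, hδ, fun z hz => ?_⟩
  have h1 := h (y := z) (by simpa [dist_zero_right] using hz)
  simp only [zero_add, FormalMultilinearSeries.partialSum,
    FormalMultilinearSeries.ofScalars_apply_eq, norm_pow, norm_norm] at h1
  simpa [smul_eq_mul] using h1

theorem t_TAY : S_TAY := by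
  intro R0 β F hU
  have hR0 : 0 < R0 := lt_trans one_pos hU.hR
  have hβ := hU.hβ
  set B : ℂ := ((β * (2 - 3 * β / 2) : ℝ) : ℂ) with hB
  obtain ⟨C1, δ1, hC1, hδ1, h1⟩ := taylor_gen hR0 hU.hF 3
  have hd : DifferentiableOn ℂ (deriv F) (ball 0 R0) := hU.hF.deriv isOpen_ball
  obtain ⟨C2, δ2, hC2, hδ2, h2⟩ := taylor_gen hR0 hd 2
  have e1 : ∀ z : ℂ, ∑ i ∈ Finset.range 3, iteratedDeriv i F 0 / (i.factorial : ℂ) * z ^ i =
      β * z + B * z ^ 2 := by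
    intro z
    rw [Finset.sum_range_succ, Finset.sum_range_succ, Finset.sum_range_one]
    simp only [iteratedDeriv_zero, iteratedDeriv_succ, hU.F0, hU.F1, hU.F2]
    rw [hB]
    push_cast [Nat.factorial]
    ring
  have e2 : ∀ z : ℂ, ∑ i ∈ Finset.range 2, iteratedDeriv i (deriv F) 0 / (i.factorial : ℂ) * z ^ i =
      β + 2 * B * z := by
    intro z
    rw [Finset.sum_range_succ, Finset.sum_range_one]
    simp only [iteratedDeriv_zero, iteratedDeriv_one, hU.F1, hU.F2]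
    rw [hB]
    push_cast [Nat.factorial]
    ring
  simp only [e1] at h1
  simp only [e2] at h2
  -- the square root
  set T : ℂ → ℂ := fun z => -1 + (1 + 2 * F z) ^ (1 / 2 : ℂ) with hT
  have hFc : ContinuousAt F 0 := (hU.hF.continuousOn).continuousAt (ball_mem_nhds 0 hR0)
  have hTc : ContinuousAt T 0 := by
    have h3 : ContinuousAt (fun z : ℂ => (1 + 2 * F z) ^ (1 / 2 : ℂ)) 0 := by
      refine ContinuousAt.cpow (by fun_prop) continuousAt_const ?_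
      simp [hU.F0]
    exact continuousAt_const.add h3
  have hT0 : T 0 = 0 := by simp [hT, hU.F0]
  have hTe : ∀ᶠ z in 𝓝 (0 : ℂ), ‖T z‖ < 1 / 2 := by
    have : ContinuousAt (fun z => ‖T z‖) 0 := hTc.norm
    refine this.eventually_lt continuousAt_const ?_
    simp [hT0]
  obtain ⟨δ3, hδ3, h3⟩ := Metric.eventually_nhds_iff.mp hTe
  have hcd : ∀ z : ℂ, Cd (T z) = F z := by
    intro z
    have h4 : ((1 + 2 * F z) ^ (1 / 2 : ℂ)) ^ 2 = 1 + 2 * F z := by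
      rw [← Complex.cpow_nat_mul]
      norm_num
    simp only [Cd, hT]
    linear_combination (1 / 2 : ℂ) * h4
  set K : ℝ := β + ‖B‖ + C1 with hK
  have hK0 : 0 < K := by positivity
  refine ⟨3 * K ^ 3 + C1 + K ^ 2 + C2, min (min δ1 δ2) (min δ3 (1 / 2)), by positivity, by positivity,
    lt_of_le_of_lt (min_le_right _ _) (lt_of_le_of_lt (min_le_right _ _) (by norm_num)), ?_⟩
  intro z hz
  have hz1 : ‖z‖ < δ1 := lt_of_lt_of_le hz ((min_le_left _ _).trans (min_le_left _ _))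
  have hz2 : ‖z‖ < δ2 := lt_of_lt_of_le hz ((min_le_left _ _).trans (min_le_right _ _))
  have hz3 : ‖z‖ < δ3 := lt_of_lt_of_le hz ((min_le_right _ _).trans (min_le_left _ _))
  have hz4 : ‖z‖ < 1 := lt_of_lt_of_le hz (((min_le_right _ _).trans (min_le_right _ _)).trans (by norm_num))
  have g1 := h1 z hz1
  have g2 := h2 z hz2
  have g3 : ‖T z‖ < 1 / 2 := h3 (by simpa [dist_zero_right] using hz3)
  have hn := norm_nonneg z
  have hBe : (β * (2 - 3 * β / 2) : ℂ) = B := by rw [hB]; push_cast; ring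
  refine ⟨?_, ?_, T z, g3, hcd z, ?_⟩
  · rw [hBe]
    refine g1.trans (mul_le_mul_of_nonneg_right ?_ (by positivity))
    have : 0 ≤ 3 * K ^ 3 + K ^ 2 + C2 := by positivity
    linarith
  · rw [hBe]
    refine g2.trans (mul_le_mul_of_nonneg_right ?_ (by positivity))
    have : 0 ≤ 3 * K ^ 3 + K ^ 2 + C1 := by positivity
    linarith
  · set w := F z with hw
    set t := T z with ht
    have htw : t + t ^ 2 / 2 = w := hcd z
    have n3 : ‖z‖ ^ 3 ≤ ‖z‖ ^ 2 := pow_le_pow_of_le_one hn hz4.le (by norm_num)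
    have n2 : ‖z‖ ^ 2 ≤ ‖z‖ := by nlinarith
    -- bounds for w
    have w1 : ‖w - β * z‖ ≤ (‖B‖ + C1) * ‖z‖ ^ 2 := by
      calc ‖w - β * z‖ = ‖(w - (β * z + B * z ^ 2)) + B * z ^ 2‖ := by congr 1; ring
        _ ≤ ‖w - (β * z + B * z ^ 2)‖ + ‖B * z ^ 2‖ := norm_add_le _ _
        _ ≤ C1 * ‖z‖ ^ 3 + ‖B‖ * ‖z‖ ^ 2 := by
            rw [norm_mul, norm_pow]; gcongr
        _ ≤ (‖B‖ + C1) * ‖z‖ ^ 2 := by nlinarith
    have hbz : ‖(β : ℂ) * z‖ = β * ‖z‖ := by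
      rw [norm_mul, Complex.norm_real, Real.norm_of_nonneg hβ.le]
    have w2 : ‖w‖ ≤ K * ‖z‖ := by
      calc ‖w‖ = ‖(w - β * z) + β * z‖ := by congr 1; ring
        _ ≤ ‖w - β * z‖ + ‖(β : ℂ) * z‖ := norm_add_le _ _
        _ ≤ (‖B‖ + C1) * ‖z‖ ^ 2 + β * ‖z‖ := by rw [hbz]; gcongr
        _ ≤ K * ‖z‖ := by
            have : (‖B‖ + C1) * ‖z‖ ^ 2 ≤ (‖B‖ + C1) * ‖z‖ := by gcongr
            rw [hK]; nlinarith
    have w3 : ‖w - β * z‖ ≤ K * ‖z‖ ^ 2 := by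
      refine w1.trans ?_
      gcongr
      rw [hK]; linarith
    have w4 : ‖w + β * z‖ ≤ 2 * K * ‖z‖ := by
      calc ‖w + β * z‖ ≤ ‖w‖ + ‖(β : ℂ) * z‖ := norm_add_le _ _
        _ ≤ K * ‖z‖ + β * ‖z‖ := by rw [hbz]; gcongr
        _ ≤ 2 * K * ‖z‖ := by
            have : β * ‖z‖ ≤ K * ‖z‖ := by
              gcongr
              rw [hK]; have := norm_nonneg B; linarith
            linarith
    -- bounds for t
    have t1 : ‖t‖ ≤ 2 * ‖w‖ := by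
      have : ‖t‖ ≤ ‖w‖ + ‖t‖ ^ 2 / 2 := by
        calc ‖t‖ = ‖w - t ^ 2 / 2‖ := by congr 1; linear_combination htw
          _ ≤ ‖w‖ + ‖t ^ 2 / 2‖ := norm_sub_le _ _
          _ = ‖w‖ + ‖t‖ ^ 2 / 2 := by simp [norm_pow]
      have hp := norm_nonneg t
      nlinarith
    have t2 : ‖t - w‖ ≤ 2 * ‖w‖ ^ 2 := by
      calc ‖t - w‖ = ‖-(t ^ 2 / 2)‖ := by congr 1; linear_combination htw
        _ = ‖t‖ ^ 2 / 2 := by simp [norm_pow]
        _ ≤ (2 * ‖w‖) ^ 2 / 2 := by gcongr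
        _ = 2 * ‖w‖ ^ 2 := by ring
    have t3 : ‖t + w‖ ≤ 3 * ‖w‖ := by
      calc ‖t + w‖ ≤ ‖t‖ + ‖w‖ := norm_add_le _ _
        _ ≤ 3 * ‖w‖ := by linarith
    have t4 : ‖(t - w) * (t + w)‖ ≤ 6 * ‖w‖ ^ 3 := by
      rw [norm_mul]
      calc ‖t - w‖ * ‖t + w‖ ≤ (2 * ‖w‖ ^ 2) * (3 * ‖w‖) := by gcongr
        _ = 6 * ‖w‖ ^ 3 := by ring
    have w5 : ‖(w - β * z) * (w + β * z)‖ ≤ 2 * K ^ 2 * ‖z‖ ^ 3 := by
      rw [norm_mul]
      calc ‖w - β * z‖ * ‖w + β * z‖ ≤ (K * ‖z‖ ^ 2) * (2 * K * ‖z‖) := by gcongr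
        _ = 2 * K ^ 2 * ‖z‖ ^ 3 := by ring
    have w6 : ‖w‖ ^ 3 ≤ K ^ 3 * ‖z‖ ^ 3 := by
      calc ‖w‖ ^ 3 ≤ (K * ‖z‖) ^ 3 := by gcongr
        _ = K ^ 3 * ‖z‖ ^ 3 := by ring
    have hid : t - (β * z + (2 * β - 2 * β ^ 2) * z ^ 2) =
        (w - (β * z + B * z ^ 2)) - (1 / 2 : ℂ) * ((t - w) * (t + w)) -
          (1 / 2 : ℂ) * ((w - β * z) * (w + β * z)) := by
      rw [hB]
      push_cast
      linear_combination htw
    calc ‖t - (β * z + (2 * β - 2 * β ^ 2) * z ^ 2)‖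
        ≤ ‖w - (β * z + B * z ^ 2)‖ + ‖(1 / 2 : ℂ) * ((t - w) * (t + w))‖ +
          ‖(1 / 2 : ℂ) * ((w - β * z) * (w + β * z))‖ := by
          rw [hid]
          exact (norm_sub_le _ _).trans (add_le_add (norm_sub_le _ _) le_rfl)
      _ ≤ C1 * ‖z‖ ^ 3 + (1 / 2) * (6 * (K ^ 3 * ‖z‖ ^ 3)) + (1 / 2) * (2 * K ^ 2 * ‖z‖ ^ 3) := by
          rw [norm_mul (1 / 2 : ℂ) ((t - w) * (t + w)),
            norm_mul (1 / 2 : ℂ) ((w - β * z) * (w + β * z))]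
          have hh : ‖(1 / 2 : ℂ)‖ = 1 / 2 := by simp
          rw [hh]
          have := t4.trans (mul_le_mul_of_nonneg_left w6 (by norm_num : (0 : ℝ) ≤ 6))
          gcongr
      _ ≤ (3 * K ^ 3 + C1 + K ^ 2 + C2) * ‖z‖ ^ 3 := by
          have : 0 ≤ C2 * ‖z‖ ^ 3 := by positivity
          nlinarith

end Pool.Agent.Run7.h997.AC
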