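import Pool.Agent.Run7.h104.AC.Defs

set_option autoImplicit false

namespace Pool.Agent.Run7.h997.AC

open MeasureTheory Complex Set Filter Topology Metric Pool.Agent.Run7.h104.AC

theorem t_BT : S_BT := by
  intro ρ G0 X N ε hρ hG hX hN hXN h1 h2 hle hfin
  set Y := G0 \ N with hY
  have hYm : MeasurableSet Y := hG.diff hN
  -- the integrals over `X ∩ Y`
  have hYs : (∫⁻ w in Y, ρ w) = (∫⁻ w in Y ∩ X, ρ w) + ∫⁻ w in Y \ X, ρ w :=
    (lintegral_inter_add_sdiff (μ := volume) ρ Y hX).symm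
  have hXs : (∫⁻ w in X, ρ w) = (∫⁻ w in X ∩ Y, ρ w) + ∫⁻ w in X \ Y, ρ w :=
    (lintegral_inter_add_sdiff (μ := volume) ρ X hYm).symm
  have hI : (∫⁻ w in Y ∩ X, ρ w) ≠ ⊤ :=
    ne_top_of_le_ne_top hfin (lintegral_mono_set inter_subset_left)
  have hXY : (∫⁻ w in X \ Y, ρ w) = volume (X \ Y) := by
    rw [setLIntegral_congr_fun (hX.diff hYm) (g := fun _ => (1 : ENNReal))]
    · simp
    · intro w hw
      refine h1 w fun hw' => hw.2 ⟨hw', fun hn => ?_⟩
      exact Set.disjoint_left.mp hXN hw.1 hn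
  have hYX : volume (Y \ X) ≤ ∫⁻ w in Y \ X, ρ w := by
    calc volume (Y \ X) = ∫⁻ _ in Y \ X, (1 : ENNReal) := by simp
      _ ≤ ∫⁻ w in Y \ X, ρ w := lintegral_mono fun w => h2 w
  have h3 : (∫⁻ w in Y \ X, ρ w) ≤ volume (X \ Y) + ε := by
    rw [hYs, hXs, hXY, inter_comm X Y, add_assoc] at hle
    exact (ENNReal.add_le_add_iff_left hI).mp hle
  calc volume Y = volume (Y ∩ X) + volume (Y \ X) := (measure_inter_add_sdiff Y hX).symm
    _ ≤ volume (X ∩ Y) + (volume (X \ Y) + ε) := by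
        rw [inter_comm Y X]
        exact add_le_add le_rfl (hYX.trans h3)
    _ = volume X + ε := by rw [← add_assoc, measure_inter_add_sdiff X hYm]

end Pool.Agent.Run7.h997.AC
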